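import Mathlib
import Pool.Agent.W368.SC.Andre

/-!
The sum of the degrees of the irreducible characters bounds the number of elements inverted
by an automorphism.
-/

open scoped BigOperators Classical TensorProduct

noncomputable section

namespace Pool.Agent.W368.TS

open Pool.Agent.W368.SC
open Pool.Agent.Helper884.IC (B Irr mem_Irr IsClass B_irr expand)
open Representation

/-- the degree of an irreducible character -/
def deg {G : Type} [Group G] (chi : IrrChar G) : ℕ := Classical.choose chi.2.deg

lemma deg_spec {G : Type} [Group G] (chi : IrrChar G) : chi.1 1 = (deg chi : ℂ) :=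
  (Classical.choose_spec chi.2.deg).2

lemma deg_pos {G : Type} [Group G] (chi : IrrChar G) : 0 < deg chi :=
  (Classical.choose_spec chi.2.deg).1

section Basic

variable {G : Type} [Group G] [Fintype G]

/-- the indicator function of the identity -/
def dl (G : Type) [Group G] (g : G) : ℂ := if g = 1 then 1 else 0

omit [Fintype G] in
lemma dl_class : IsClass (dl G) := by
  intro g y
  unfold dl
  congr 1
  apply propext
  constructor
  · intro h
    have : g = y⁻¹ * (y * g * y⁻¹) * y := by group
    rw [this, h]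
    group
  · rintro rfl
    group

lemma dl_expand (g : G) :
    dl G g = ∑ chi : IrrChar G, (Nat.card G : ℂ)⁻¹ * (deg chi : ℂ) * chi.1 g := by
  rw [expand' dl_class g]
  refine Finset.sum_congr rfl fun chi _ => ?_
  congr 1
  unfold B dl
  simp only [ite_mul, one_mul, zero_mul]
  rw [Finset.sum_ite_eq' Finset.univ (1 : G)]
  simp [deg_spec]

end Basic

section Sub

variable {G : Type} [Group G] [Fintype G] (H : Subgroup G)

lemma mult_nat (chi : IrrChar G) (psi : IrrChar H) :
    ∃ m : ℕ, B (fun h : H => chi.1 h) psi.1 = m := by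
  obtain ⟨chi, V, _, _, _, rho, hr, rfl⟩ := chi
  obtain ⟨psi, W, _, _, _, sigma, hs, rfl⟩ := psi
  have : Invertible (Nat.card H : ℂ) := invertibleOfNonzero cardG_ne
  refine ⟨Module.finrank ℂ (IntertwiningMap sigma (rho.comp H.subtype)), ?_⟩
  rw [← card_inv_mul_sum_char_mul_char_eq_finrank]
  rfl

lemma restr_class (chi : IrrChar G) : IsClass (fun h : H => chi.1 h) := by
  intro h y
  exact chi.2.isClass (h : G) (y : G)

lemma mult_pos (psi : IrrChar H) : ∃ chi : IrrChar G, B (fun h : H => chi.1 h) psi.1 ≠ 0 := by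
  by_contra hcon
  push Not at hcon
  have h1 : (dl H) = ∑ chi : IrrChar G, ((Nat.card G : ℂ)⁻¹ * (deg chi : ℂ)) •
      (fun h : H => chi.1 (h : G)) := by
    funext h
    rw [Finset.sum_apply]
    have h2 : dl H h = dl G (h : G) := by
      unfold dl
      congr 1
      simp
    rw [h2, dl_expand]
    rfl
  have h3 : B (dl H) psi.1 = 0 := by
    rw [h1, Pool.Agent.Helper884.IC.B_sum_left]
    refine Finset.sum_eq_zero fun chi _ => ?_
    rw [Pool.Agent.Helper884.IC.B_smul_left, hcon chi, mul_zero]
  have h4 : B (dl H) psi.1 = (Nat.card H : ℂ)⁻¹ * (deg psi : ℂ) := by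
    unfold B dl
    simp only [ite_mul, one_mul, zero_mul]
    rw [Finset.sum_ite_eq' Finset.univ (1 : H)]
    simp [deg_spec]
  rw [h3] at h4
  have h5 : (Nat.card H : ℂ)⁻¹ ≠ 0 := inv_ne_zero cardG_ne
  have h6 : (deg psi : ℂ) ≠ 0 := by exact_mod_cast (deg_pos psi).ne'
  exact (mul_ne_zero h5 h6) h4.symm

/-- the sum of the degrees is monotone under passing to subgroups -/
theorem sum_deg_mono : ∑ psi : IrrChar H, deg psi ≤ ∑ chi : IrrChar G, deg chi := by
  choose m hm using fun (p : IrrChar G × IrrChar H) => mult_nat H p.1 p.2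
  have h1 : ∀ chi : IrrChar G, deg chi = ∑ psi : IrrChar H, m (chi, psi) * deg psi := by
    intro chi
    have h2 := expand' (restr_class H chi) (1 : H)
    have h3 : (deg chi : ℂ) = ∑ psi : IrrChar H, (m (chi, psi) : ℂ) * (deg psi : ℂ) := by
      rw [← deg_spec chi]
      refine Eq.trans ?_ (h2.trans ?_)
      · simp
      · refine Finset.sum_congr rfl fun psi _ => ?_
        rw [hm (chi, psi), deg_spec psi]
    exact_mod_cast h3
  calc ∑ psi : IrrChar H, deg psi
      ≤ ∑ psi : IrrChar H, (∑ chi : IrrChar G, m (chi, psi)) * deg psi := by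
        refine Finset.sum_le_sum fun psi _ => ?_
        obtain ⟨chi, hchi⟩ := mult_pos H psi
        have h2 : 1 ≤ m (chi, psi) := by
          rw [Nat.one_le_iff_ne_zero]
          intro h0
          apply hchi
          rw [hm (chi, psi), h0]
          simp
        have h3 : 1 ≤ ∑ chi : IrrChar G, m (chi, psi) :=
          le_trans h2 (Finset.single_le_sum (f := fun chi => m (chi, psi))
            (fun _ _ => Nat.zero_le _) (Finset.mem_univ chi))
        exact Nat.le_mul_of_pos_left _ h3
    _ = ∑ chi : IrrChar G, deg chi := by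
        simp only [Finset.sum_mul]
        rw [Finset.sum_comm]
        exact (Finset.sum_congr rfl fun chi _ => (h1 chi)).symm

end Sub

section Lin
variable {V : Type} [AddCommGroup V] [Module ℂ V] [FiniteDimensional ℂ V]

lemma comp_sum' {W : Type} [AddCommGroup W] [Module ℂ W] {ι : Type} (s : Finset ι) (f : W →ₗ[ℂ] W)
    (g : ι → W →ₗ[ℂ] W) : f ∘ₗ (∑ i ∈ s, g i) = ∑ i ∈ s, f ∘ₗ g i := by
  apply LinearMap.ext
  intro v
  simp only [LinearMap.comp_apply, LinearMap.sum_apply, map_sum]

lemma sum_comp' {W : Type} [AddCommGroup W] [Module ℂ W] {ι : Type} (s : Finset ι) (f : W →ₗ[ℂ] W)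
    (g : ι → W →ₗ[ℂ] W) : (∑ i ∈ s, g i) ∘ₗ f = ∑ i ∈ s, g i ∘ₗ f := by
  apply LinearMap.ext
  intro v
  simp only [LinearMap.comp_apply, LinearMap.sum_apply]

/-- the swap on the tensor square -/
def swp (V : Type) [AddCommGroup V] [Module ℂ V] : V ⊗[ℂ] V →ₗ[ℂ] V ⊗[ℂ] V :=
  (TensorProduct.comm ℂ V V).toLinearMap

omit [FiniteDimensional ℂ V] in
lemma swp_swp : swp V ∘ₗ swp V = LinearMap.id := by
  ext a b
  simp [swp]

omit [FiniteDimensional ℂ V] in
lemma swp_map (f g : V →ₗ[ℂ] V) :
    swp V ∘ₗ TensorProduct.map f g = TensorProduct.map g f ∘ₗ swp V := by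
  ext a b
  simp [swp]

lemma trace_swp (f g : V →ₗ[ℂ] V) :
    LinearMap.trace ℂ (V ⊗[ℂ] V) (TensorProduct.map f g ∘ₗ swp V)
      = LinearMap.trace ℂ V (f ∘ₗ g) := by
  set b := Module.finBasis ℂ V with hb
  rw [LinearMap.trace_eq_matrix_trace ℂ (b.tensorProduct b), LinearMap.trace_eq_matrix_trace ℂ b,
    LinearMap.toMatrix_comp b b b]
  simp only [Matrix.trace, Matrix.diag_apply, Matrix.mul_apply]
  rw [Fintype.sum_prod_type]
  refine Finset.sum_congr rfl fun i _ => Finset.sum_congr rfl fun j _ => ?_
  rw [LinearMap.toMatrix_apply, LinearMap.toMatrix_apply, LinearMap.toMatrix_apply]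
  rw [Module.Basis.tensorProduct_apply]
  simp only [swp, LinearMap.comp_apply, LinearEquiv.coe_coe, TensorProduct.comm_tmul,
    TensorProduct.map_tmul]
  rw [Module.Basis.tensorProduct_repr_tmul_apply]
  simp only [smul_eq_mul]
  ring

omit [FiniteDimensional ℂ V] in
lemma trace_idem [FiniteDimensional ℂ V] (f : V →ₗ[ℂ] V) (h : f ∘ₗ f = f) :
    LinearMap.trace ℂ V f = (Module.finrank ℂ (LinearMap.range f) : ℂ) := by
  have h1 : IsIdempotentElem f := h
  have h2 := (LinearMap.isProj_range_iff_isIdempotentElem f).mpr h1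
  exact h2.trace

end Lin

section Twist

variable {G : Type} [Group G] [Fintype G]

/-- the dual of an irreducible character composed with an automorphism is irreducible -/
lemma irr_twist {chi : G → ℂ} (h : IsIrrChar chi) (al : G ≃* G) :
    IsIrrChar (fun g => chi (al g⁻¹)) := by
  obtain ⟨V, _, _, _, rho, hr, rfl⟩ := h
  refine ⟨Module.Dual ℂ V, inferInstance, inferInstance, inferInstance,
    (Representation.dual (rho.comp al.toMonoidHom : Representation ℂ G V)), ?_, ?_⟩
  · -- irreducibility of the dual
    have : Nontrivial V := by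
      by_contra hn
      rw [not_nontrivial_iff_subsingleton] at hn
      have : Subsingleton (Subrepresentation rho) := by
        constructor
        intro a b
        ext x
        have : x = 0 := Subsingleton.elim _ _
        subst this
        simp
      have h5 := hr.toNontrivial
      exact not_subsingleton (Subrepresentation rho) this
    have hnt : Nontrivial (Subrepresentation (Representation.dual (rho.comp al.toMonoidHom : Representation ℂ G V))) := by
      refine ⟨⊥, ⊤, ?_⟩
      intro h1
      obtain ⟨f, hf⟩ := exists_ne (0 : Module.Dual ℂ V)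
      have h2 : f ∈ (⊤ : Subrepresentation (Representation.dual (rho.comp al.toMonoidHom : Representation ℂ G V))) := trivial
      rw [← h1] at h2
      exact hf h2
    refine @IsSimpleOrder.mk _ _ _ hnt ?_
    intro W
    -- the coannihilator is a subrepresentation of rho
    let A : Subrepresentation rho := ⟨W.toSubmodule.dualCoannihilator, by
      intro g v hv
      rw [Submodule.mem_dualCoannihilator] at hv ⊢
      intro phi hphi
      have h1 := W.apply_mem_toSubmodule (al.symm g⁻¹) hphi
      have h2 := hv _ h1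
      simp only [Representation.dual_apply, MonoidHom.coe_comp, Function.comp_apply,
        MulEquiv.coe_toMonoidHom, map_inv, MulEquiv.apply_symm_apply, inv_inv] at h2
      exact h2⟩
    have hA := hr.eq_bot_or_eq_top A
    have hW : W.toSubmodule.dualCoannihilator.dualAnnihilator = W.toSubmodule :=
      Subspace.dualCoannihilator_dualAnnihilator_eq
    rcases hA with hA | hA
    · right
      have h1 : W.toSubmodule.dualCoannihilator = ⊥ := congrArg Subrepresentation.toSubmodule hA
      rw [h1, Submodule.dualAnnihilator_bot] at hW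
      apply Subrepresentation.toSubmodule_injective
      rw [← hW]
      rfl
    · left
      have h1 : W.toSubmodule.dualCoannihilator = ⊤ := congrArg Subrepresentation.toSubmodule hA
      rw [h1, Submodule.dualAnnihilator_top] at hW
      apply Subrepresentation.toSubmodule_injective
      rw [← hW]
      rfl
  · funext g
    rw [Representation.char_dual]
    rfl

/-- the twisted Frobenius-Schur indicator of an involutive automorphism is at most one -/
theorem indicator_le (al : G ≃* G) (hal : ∀ g, al (al g) = g) (chi : IrrChar G) :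
    ∃ e : ℤ, e ≤ 1 ∧ (Nat.card G : ℂ)⁻¹ * ∑ g : G, chi.1 (g * al g) = e := by
  have hB := B_irr chi.2 (irr_twist chi.2 al)
  obtain ⟨chi, V, _, _, _, rho, hr, rfl⟩ := chi
  simp only at hB ⊢
  set A : G → (V ⊗[ℂ] V →ₗ[ℂ] V ⊗[ℂ] V) := fun g => TensorProduct.map (rho g) (rho (al g)) with hA
  have hAmul : ∀ g h : G, A g ∘ₗ A h = A (g * h) := by
    intro g h
    simp only [hA]
    rw [← TensorProduct.map_comp]
    simp [map_mul, Module.End.mul_eq_comp]
  set P : V ⊗[ℂ] V →ₗ[ℂ] V ⊗[ℂ] V := (Nat.card G : ℂ)⁻¹ • ∑ g : G, A g with hP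
  have hAP : ∀ g : G, A g ∘ₗ P = P := by
    intro g
    rw [hP, LinearMap.comp_smul, comp_sum']
    congr 1
    simp only [hAmul]
    exact Fintype.sum_equiv (Equiv.mulLeft g) _ _ fun _ => rfl
  have hPP : P ∘ₗ P = P := by
    have h1 : P ∘ₗ P = (Nat.card G : ℂ)⁻¹ • ∑ g : G, (A g ∘ₗ P) := by
      conv_lhs => rw [hP]
      rw [LinearMap.smul_comp, sum_comp']
    rw [h1]
    simp only [hAP]
    rw [Finset.sum_const, Finset.card_univ, ← Nat.card_eq_fintype_card, ← Nat.cast_smul_eq_nsmul ℂ,
      smul_smul, inv_mul_cancel₀ cardG_ne, one_smul]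
  have hPs : P ∘ₗ swp V = swp V ∘ₗ P := by
    rw [hP, LinearMap.smul_comp, sum_comp', LinearMap.comp_smul, comp_sum']
    congr 1
    refine Fintype.sum_equiv al.toEquiv _ _ fun g => ?_
    simp only [hA]
    rw [swp_map]
    have : al.toEquiv g = al g := rfl
    rw [this, hal]
  set E : V ⊗[ℂ] V →ₗ[ℂ] V ⊗[ℂ] V := (2 : ℂ)⁻¹ • (P + P ∘ₗ swp V) with hE
  have hEE : E ∘ₗ E = E := by
    have h1 : (P ∘ₗ swp V) ∘ₗ P = P ∘ₗ swp V := by
      rw [LinearMap.comp_assoc, ← hPs, ← LinearMap.comp_assoc, hPP]
    have h2 : P ∘ₗ (P ∘ₗ swp V) = P ∘ₗ swp V := by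
      rw [← LinearMap.comp_assoc, hPP]
    have h3 : (P ∘ₗ swp V) ∘ₗ (P ∘ₗ swp V) = P := by
      have h4 : swp V ∘ₗ (P ∘ₗ swp V) = P := by
        rw [← LinearMap.comp_assoc, ← hPs, LinearMap.comp_assoc, swp_swp, LinearMap.comp_id]
      rw [LinearMap.comp_assoc, h4, hPP]
    rw [hE, LinearMap.smul_comp, LinearMap.comp_smul, LinearMap.add_comp, LinearMap.comp_add,
      LinearMap.comp_add, hPP, h1, h2, h3]
    module
  have hPE : P ∘ₗ E = E := by
    rw [hE, LinearMap.comp_smul, LinearMap.comp_add, hPP, ← LinearMap.comp_assoc, hPP]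
  have hn1 := trace_idem P hPP
  have hn2 := trace_idem E hEE
  have hle : Module.finrank ℂ (LinearMap.range E) ≤ Module.finrank ℂ (LinearMap.range P) := by
    apply Submodule.finrank_mono
    rw [← hPE]
    exact LinearMap.range_comp_le_range _ _
  have htP : LinearMap.trace ℂ _ P
      = (Nat.card G : ℂ)⁻¹ * ∑ g : G, rho.character g * rho.character (al g) := by
    rw [hP, map_smul, map_sum, smul_eq_mul]
    congr 1
    refine Finset.sum_congr rfl fun g _ => ?_
    simp only [hA]
    rw [LinearMap.trace_tensorProduct']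
    rfl
  have htS : LinearMap.trace ℂ _ (P ∘ₗ swp V)
      = (Nat.card G : ℂ)⁻¹ * ∑ g : G, rho.character (g * al g) := by
    rw [hP, LinearMap.smul_comp, sum_comp', map_smul, map_sum, smul_eq_mul]
    congr 1
    refine Finset.sum_congr rfl fun g _ => ?_
    simp only [hA]
    rw [trace_swp]
    have : rho (g * al g) = rho g ∘ₗ rho (al g) := by
      rw [map_mul]
      rfl
    rw [Representation.character, this]
  have htE : LinearMap.trace ℂ _ E
      = (2 : ℂ)⁻¹ * (LinearMap.trace ℂ _ P + LinearMap.trace ℂ _ (P ∘ₗ swp V)) := by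
    rw [hE, map_smul, map_add, smul_eq_mul]
  have hB' : LinearMap.trace ℂ _ P = B rho.character (fun g => rho.character (al g⁻¹)) := by
    rw [htP]
    unfold B
    simp
  have hle1 : Module.finrank ℂ (LinearMap.range P) ≤ 1 := by
    have h1 : (Module.finrank ℂ (LinearMap.range P) : ℂ)
        = if rho.character = (fun g => rho.character (al g⁻¹)) then 1 else 0 := by
      rw [← hn1, hB', hB]
    split_ifs at h1 with h2
    · exact le_of_eq (by exact_mod_cast h1)
    · have : Module.finrank ℂ (LinearMap.range P) = 0 := by exact_mod_cast h1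
      omega
  refine ⟨2 * (Module.finrank ℂ (LinearMap.range E) : ℤ)
    - (Module.finrank ℂ (LinearMap.range P) : ℤ), ?_, ?_⟩
  · omega
  · rw [← htS]
    rw [hn2, hn1] at htE
    push_cast
    linear_combination (-2) * htE

/-- the inequality for an involutive automorphism -/
theorem invol_le (al : G ≃* G) (hal : ∀ g, al (al g) = g) :
    Nat.card {g : G // al g = g⁻¹} ≤ ∑ chi : IrrChar G, deg chi := by
  choose e he1 he2 using indicator_le al hal
  have h1 : (Nat.card {g : G // al g = g⁻¹} : ℂ) = ∑ chi : IrrChar G, (deg chi : ℂ) * (e chi : ℂ) := by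
    have h2 : (Nat.card {g : G // al g = g⁻¹} : ℂ) = ∑ g : G, dl G (g * al g) := by
      unfold dl
      rw [Finset.sum_boole, Nat.card_eq_fintype_card, Fintype.card_subtype]
      congr 2
      ext g
      simp only [Finset.mem_filter, Finset.mem_univ, true_and]
      rw [mul_eq_one_iff_eq_inv]
      constructor
      · intro h
        rw [h, inv_inv]
      · intro h
        conv_rhs => rw [h]
        rw [inv_inv]
    rw [h2]
    simp_rw [dl_expand]
    rw [Finset.sum_comm]
    refine Finset.sum_congr rfl fun chi _ => ?_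
    rw [← he2 chi, ← Finset.mul_sum]
    ring
  have h3 : (Nat.card {g : G // al g = g⁻¹} : ℤ) = ∑ chi : IrrChar G, (deg chi : ℤ) * e chi := by
    exact_mod_cast h1
  have h4 : (Nat.card {g : G // al g = g⁻¹} : ℤ) ≤ ∑ chi : IrrChar G, (deg chi : ℤ) := by
    rw [h3]
    refine Finset.sum_le_sum fun chi _ => ?_
    have h5 : (0 : ℤ) ≤ deg chi := by positivity
    nlinarith [he1 chi]
  exact_mod_cast h4

end Twist

/-- the inequality for all automorphisms -/
theorem main (G : Type) [Group G] [Fintype G] (al : G ≃* G) :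
    Nat.card {g : G // al g = g⁻¹} ≤ ∑ chi : IrrChar G, deg chi := by
  -- the subgroup of fixed points of the square of `al`
  let H : Subgroup G :=
    { carrier := {g | al (al g) = g}
      mul_mem' := by
        intro a b ha hb
        show al (al (a * b)) = a * b
        rw [map_mul, map_mul, ha, hb]
      one_mem' := by
        show al (al 1) = 1
        rw [map_one, map_one]
      inv_mem' := by
        intro a ha
        show al (al a⁻¹) = a⁻¹
        rw [map_inv, map_inv, ha] }
  have hH : ∀ g : G, g ∈ H ↔ al (al g) = g := fun g => Iff.rfl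
  let be : H ≃* H :=
    { toFun := fun h => ⟨al h, by
        rw [hH, (hH h).mp h.2]⟩
      invFun := fun h => ⟨al h, by
        rw [hH, (hH h).mp h.2]⟩
      left_inv := fun h => Subtype.ext ((hH h).mp h.2)
      right_inv := fun h => Subtype.ext ((hH h).mp h.2)
      map_mul' := fun a b => Subtype.ext (map_mul al (a : G) (b : G)) }
  have h1 := invol_le be (fun h => Subtype.ext ((hH h).mp h.2))
  have h2 : Nat.card {g : G // al g = g⁻¹} = Nat.card {h : H // be h = h⁻¹} := by
    refine Nat.card_congr ?_
    refine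
      { toFun := fun g => ⟨⟨g.1, by rw [hH, g.2, map_inv, g.2, inv_inv]⟩, Subtype.ext g.2⟩
        invFun := fun h => ⟨h.1.1, congrArg Subtype.val h.2⟩
        left_inv := fun _ => rfl
        right_inv := fun _ => rfl }
  rw [h2]
  exact le_trans h1 (sum_deg_mono H)

end Pool.Agent.W368.TS
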